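import Pool.Agent.Helper13.JS.St

set_option autoImplicit false

namespace Pool.Agent.Helper48.JS

open Finset ArithmeticFunction Pool.Agent.Helper13.JS
open Pool.Agent.Helper15.AB (IsW)
open Pool.Agent.Helper60.GP (II)

theorem two_card (J : Finset ℕ) (p : ℝ) :
    ((J.filter (fun j : ℕ => Real.exp j / 2 < p ∧ p ≤ 3 * Real.exp j)).card : ℝ) ≤ 2 := by
  classical
  obtain ⟨s, hs⟩ : ∃ s, s = J.filter (fun j : ℕ => Real.exp j / 2 < p ∧ p ≤ 3 * Real.exp j) :=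
    ⟨_, rfl⟩
  rw [← hs]
  have hmem : ∀ j ∈ s, Real.exp (j : ℕ) / 2 < p ∧ p ≤ 3 * Real.exp (j : ℕ) := by
    intro j hj
    rw [hs] at hj
    exact (mem_filter.1 hj).2
  rcases s.eq_empty_or_nonempty with h | h
  · rw [h]; simp
  · obtain ⟨m, hm, hmin⟩ : ∃ m ∈ s, ∀ j ∈ s, m ≤ j :=
      ⟨s.min' h, s.min'_mem h, fun j hj => s.min'_le j hj⟩
    have hsub : s ⊆ Icc m (m + 1) := by
      intro j hj
      rw [mem_Icc]
      refine ⟨hmin j hj, ?_⟩
      by_contra hlt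
      have hlt2 : m + 2 ≤ j := by omega
      have h1 := (hmem j hj).1
      have h2 := (hmem m hm).2
      have h3 : Real.exp ((m : ℝ) + 2) ≤ Real.exp j := by
        apply Real.exp_le_exp.2
        exact_mod_cast hlt2
      rw [Real.exp_add] at h3
      have h4 : (6 : ℝ) < Real.exp 2 := by
        have h5 : Real.exp 2 = Real.exp 1 * Real.exp 1 := by
          rw [← Real.exp_add]; norm_num
        have h6 := Real.exp_one_gt_d9
        rw [h5]; nlinarith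
      have h7 := Real.exp_pos (m : ℝ)
      nlinarith
    have h2 := card_le_card hsub
    rw [Nat.card_Icc] at h2
    have h3 : s.card ≤ 2 := by omega
    exact_mod_cast h3

theorem ms_sum (E J : Finset ℕ) (u : ℝ)
    (hJ : ∀ j ∈ J, 2 * u ≤ Real.exp (j : ℕ) ∧ 3 * Real.exp (j : ℕ) ≤ u ^ 2) :
    ∑ j ∈ J, ms E (Real.exp (j : ℕ) / 2) (3 * Real.exp (j : ℕ)) ≤ 2 * ms E u (u ^ 2) := by
  classical
  simp only [ms, sum_filter]
  rw [sum_comm, mul_sum]
  refine sum_le_sum fun p _ => ?_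
  by_cases h : u < (p : ℝ) ∧ (p : ℝ) ≤ u ^ 2
  · rw [if_pos h, ← sum_filter, sum_const, nsmul_eq_mul]
    have h2 := two_card J p
    exact mul_le_mul_of_nonneg_right h2 (by positivity)
  · rw [if_neg h, mul_zero]
    refine le_of_eq (sum_eq_zero fun j hj => ?_)
    rw [if_neg]
    rintro ⟨h1, h2⟩
    obtain ⟨g1, g2⟩ := hJ j hj
    exact h ⟨by linarith, by linarith⟩

theorem hVC (hVA : StVA) (hVB : StVB) (hVW : StVW) (hWE : Pool.Agent.Helper15.AB.StWE) :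
    StVC := by
  classical
  obtain ⟨ω, hω⟩ := hWE
  obtain ⟨κ, hκ0, hκ1, hA⟩ := hVA ω hω
  obtain ⟨C, hC0, hB⟩ := hVB ω hω κ hκ0 hκ1
  refine ⟨κ, hκ0, hκ1, ?_⟩
  intro c₁ hc₁
  obtain ⟨c, hc, hA'⟩ := hA c₁ hc₁
  refine ⟨c / (64 * C), by positivity, ?_⟩
  intro κ₁ hκ₁ hκ₁'
  obtain ⟨x₁, hx₁, hA''⟩ := hA' κ₁ hκ₁ (by linarith)
  obtain ⟨x₂, hx₂, hB'⟩ := hB κ₁ hκ₁
  have ev : ∀ᶠ t : ℝ in Filter.atTop, 6 ≤ κ₁ * Real.log t ∧
      Real.log t * t ^ (-(κ₁ / 4)) ≤ 3 * c / 32 := by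
    have e1 : ∀ᶠ t : ℝ in Filter.atTop, 6 / κ₁ ≤ Real.log t :=
      Real.tendsto_log_atTop.eventually_ge_atTop _
    have e2 := (isLittleO_log_rpow_atTop (by positivity : 0 < κ₁ / 4)).bound
      (by positivity : 0 < 3 * c / 32)
    filter_upwards [e1, e2, Filter.eventually_ge_atTop 1] with t a1 a2 a3
    constructor
    · rw [div_le_iff₀ hκ₁] at a1; linarith
    · have hp : 0 < t ^ (κ₁ / 4) := Real.rpow_pos_of_pos (by linarith) _
      rw [Real.norm_eq_abs, Real.norm_eq_abs, abs_of_nonneg (Real.log_nonneg a3),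
        abs_of_pos hp] at a2
      rw [Real.rpow_neg (by linarith), ← div_eq_mul_inv, div_le_iff₀ hp]
      exact a2
  obtain ⟨x₃, hx₃⟩ := Filter.eventually_atTop.1 ev
  refine ⟨c * κ₁ / 16, max (max x₁ x₂) (max x₃ 2), by positivity,
    le_max_of_le_right (le_max_right _ _), ?_⟩
  intro x y a u hx hxy hyx hu1 hu2 hD hms
  have g1 : x₁ ≤ x := (le_max_left _ _).trans ((le_max_left _ _).trans hx)
  have g2 : x₂ ≤ x := (le_max_right _ _).trans ((le_max_left _ _).trans hx)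
  have g3 : x₃ ≤ x := (le_max_left _ _).trans ((le_max_right _ _).trans hx)
  have g4 : (2 : ℝ) ≤ x := (le_max_right _ _).trans ((le_max_right _ _).trans hx)
  obtain ⟨k1, k2⟩ := hx₃ x g3
  have hx0 : (0 : ℝ) < x := by linarith
  have hxy' : (x : ℝ) ≤ y := by exact_mod_cast hxy
  have hyx' : (y : ℝ) ≤ (x : ℝ) ^ 2 := by exact_mod_cast hyx
  have hy0 : (0 : ℝ) < y := by linarith
  have hlx : 0 < Real.log x := Real.log_pos (by linarith)
  have hu0 : 0 < u := lt_of_lt_of_le (Real.rpow_pos_of_pos hx0 _) hu1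
  have hlu : κ₁ * Real.log x ≤ Real.log u := by
    have := Real.log_le_log (Real.rpow_pos_of_pos hx0 _) hu1
    rwa [Real.log_rpow hx0] at this
  obtain ⟨L, hL⟩ : ∃ L, L = Real.log u := ⟨_, rfl⟩
  rw [← hL] at hlu
  have hL6 : 6 ≤ L := by linarith
  have hlog2 := Real.log_two_gt_d9
  have hlog2' := Real.log_two_lt_d9
  have hlog3 : Real.log 3 ≤ 2 := by
    have := Real.log_le_sub_one_of_pos (by norm_num : (0 : ℝ) < 3)
    linarith
  have hlog30 : 0 < Real.log 3 := Real.log_pos (by norm_num)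
  have e2u : Real.log (2 * u) = Real.log 2 + L := by
    rw [Real.log_mul (by norm_num) hu0.ne', hL]
  have e3u : Real.log (u ^ 2 / 3) = 2 * L - Real.log 3 := by
    rw [Real.log_div (by positivity) (by norm_num), Real.log_pow, hL]; norm_num
  obtain ⟨J, hJ⟩ : ∃ J, J = Icc ⌈Real.log (2 * u)⌉₊ ⌊Real.log (u ^ 2 / 3)⌋₊ := ⟨_, rfl⟩
  have hJm : ∀ j ∈ J, 2 * u ≤ Real.exp (j : ℕ) ∧ 3 * Real.exp (j : ℕ) ≤ u ^ 2 := by
    intro j hj
    rw [hJ, mem_Icc] at hj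
    obtain ⟨h1, h2⟩ := hj
    have h3 : Real.log (2 * u) ≤ j := Nat.ceil_le.1 h1
    have h4 : (j : ℝ) ≤ Real.log (u ^ 2 / 3) := by
      refine (Nat.cast_le.2 h2).trans (Nat.floor_le ?_)
      rw [e3u]; linarith
    constructor
    · exact (Real.log_le_iff_le_exp (by positivity)).1 h3
    · have h5 := (Real.le_log_iff_exp_le (by positivity)).1 h4
      linarith
  have hcard1 : L / 2 ≤ (J.card : ℝ) := by
    rw [hJ, Nat.card_Icc]
    have h1 : ⌊Real.log (u ^ 2 / 3)⌋₊ + 1 ≤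
        (⌊Real.log (u ^ 2 / 3)⌋₊ + 1 - ⌈Real.log (2 * u)⌉₊) + ⌈Real.log (2 * u)⌉₊ := by omega
    have h2 : (⌊Real.log (u ^ 2 / 3)⌋₊ : ℝ) + 1 ≤
        ((⌊Real.log (u ^ 2 / 3)⌋₊ + 1 - ⌈Real.log (2 * u)⌉₊ : ℕ) : ℝ) +
          (⌈Real.log (2 * u)⌉₊ : ℝ) := by exact_mod_cast h1
    have h3 := Nat.lt_floor_add_one (Real.log (u ^ 2 / 3))
    have h4 : (⌈Real.log (2 * u)⌉₊ : ℝ) < Real.log (2 * u) + 1 :=
      Nat.ceil_lt_add_one (by rw [e2u]; linarith)
    rw [e3u] at h3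
    rw [e2u] at h4
    rw [e3u, e2u] at h2
    rw [e3u, e2u]
    have hlog3' : Real.log 3 < 1.2 := by
      have h6 : Real.log 3 = Real.log 2 + Real.log (3 / 2) := by
        rw [← Real.log_mul (by norm_num) (by norm_num)]; norm_num
      have h7 := Real.log_le_sub_one_of_pos (by norm_num : (0 : ℝ) < 3 / 2)
      rw [h6]; linarith
    linarith
  have hcard2 : (J.card : ℝ) ≤ 2 * L := by
    have h0 : 1 ≤ ⌈Real.log (2 * u)⌉₊ := Nat.ceil_pos.2 (by rw [e2u]; linarith)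
    have h1 : J.card ≤ ⌊Real.log (u ^ 2 / 3)⌋₊ := by
      rw [hJ, Nat.card_Icc]; omega
    have h2 : (J.card : ℝ) ≤ (⌊Real.log (u ^ 2 / 3)⌋₊ : ℝ) := by exact_mod_cast h1
    have h3 : (⌊Real.log (u ^ 2 / 3)⌋₊ : ℝ) ≤ Real.log (u ^ 2 / 3) :=
      Nat.floor_le (by rw [e3u]; linarith)
    rw [e3u] at h3 h2
    linarith
  -- the sums `G j`
  have hG : ∀ j ∈ J, c * y / Real.log x - (C * (y / Real.log x) * (2 * L *
      ms (On x a) (Real.exp (j : ℕ) / 2) (3 * Real.exp (j : ℕ))) + y * (x : ℝ) ^ (-(κ₁ / 4))) ≤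
      ∑ m ∈ Icc 1 ⌊(y : ℝ) / (3 * Real.exp j)⌋₊,
      ∑ n ∈ (II (Real.exp j)).filter (fun n : ℕ =>
        (∀ s ∈ Qs x κ a, ¬ (s : ℤ) ∣ ((m * n : ℕ) : ℤ) - a s) ∧ ¬ n.minFac ∈ On x a),
        al x a m * (Λ n * ω (Real.log (n / Real.exp j))) := by
    intro j hj
    obtain ⟨j1, j2⟩ := hJm j hj
    have v1 : (x : ℝ) ^ κ₁ ≤ Real.exp (j : ℕ) := by linarith
    have hu2' : u ^ 2 ≤ (x : ℝ) ^ (1 / 2 : ℝ) := by
      have h1 : u ^ 2 ≤ ((x : ℝ) ^ (1 / 4 : ℝ)) ^ 2 := by gcongr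
      rw [← Real.rpow_natCast ((x : ℝ) ^ (1 / 4 : ℝ)) 2, ← Real.rpow_mul hx0.le] at h1
      norm_num at h1
      norm_num
      exact h1
    have v2 : Real.exp (j : ℕ) ≤ (x : ℝ) ^ (1 / 2 : ℝ) := by
      have := Real.exp_pos (j : ℝ)
      linarith
    have a1 := hA'' x y a (Real.exp (j : ℕ)) g1 hxy hyx v1 v2 hD
    have b1 := hB' x y a (Real.exp (j : ℕ)) g2 hxy hyx v1 v2
    rw [Real.log_exp] at b1
    have hmsn : 0 ≤ ms (On x a) (Real.exp (j : ℕ) / 2) (3 * Real.exp (j : ℕ)) :=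
      sum_nonneg fun p _ => by positivity
    have hj2L : (j : ℝ) ≤ 2 * L := by
      have h5 : Real.exp (j : ℕ) ≤ u ^ 2 := by
        have := Real.exp_pos (j : ℝ)
        linarith
      have h6 := (Real.le_log_iff_exp_le (by positivity)).2 h5
      rw [Real.log_pow, ← hL] at h6
      exact_mod_cast h6
    have b2 : C * (y / Real.log x) * ((j : ℝ) *
        ms (On x a) (Real.exp (j : ℕ) / 2) (3 * Real.exp (j : ℕ))) ≤
        C * (y / Real.log x) * (2 * L *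
        ms (On x a) (Real.exp (j : ℕ) / 2) (3 * Real.exp (j : ℕ))) := by
      gcongr
    have hsplit : ∀ m : ℕ, ∑ n ∈ (II (Real.exp j)).filter (fun n : ℕ =>
        ∀ s ∈ Qs x κ a, ¬ (s : ℤ) ∣ ((m * n : ℕ) : ℤ) - a s),
          al x a m * (Λ n * ω (Real.log (n / Real.exp j))) =
        ∑ n ∈ (II (Real.exp j)).filter (fun n : ℕ =>
        (∀ s ∈ Qs x κ a, ¬ (s : ℤ) ∣ ((m * n : ℕ) : ℤ) - a s) ∧ n.minFac ∈ On x a),
          al x a m * (Λ n * ω (Real.log (n / Real.exp j))) +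
        ∑ n ∈ (II (Real.exp j)).filter (fun n : ℕ =>
        (∀ s ∈ Qs x κ a, ¬ (s : ℤ) ∣ ((m * n : ℕ) : ℤ) - a s) ∧ ¬ n.minFac ∈ On x a),
          al x a m * (Λ n * ω (Real.log (n / Real.exp j))) := by
      intro m
      rw [← sum_filter_add_sum_filter_not ((II (Real.exp j)).filter (fun n : ℕ =>
        ∀ s ∈ Qs x κ a, ¬ (s : ℤ) ∣ ((m * n : ℕ) : ℤ) - a s)) (fun n => n.minFac ∈ On x a),
        filter_filter, filter_filter]
    rw [sum_congr rfl fun m _ => hsplit m, sum_add_distrib] at a1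
    linarith
  have hW := hVW ω hω x y κ a J (by
    have : (1 : ℝ) ≤ y := by linarith
    exact_mod_cast this)
  have hsum := (sum_le_sum hG).trans hW
  rw [sum_sub_distrib, sum_add_distrib, sum_const, sum_const, ← mul_sum, ← mul_sum,
    nsmul_eq_mul, nsmul_eq_mul] at hsum
  have hms2 := ms_sum (On x a) J u hJm
  have hly : Real.log y ≤ 2 * Real.log x := by
    have := Real.log_le_log hy0 hyx'
    rwa [Real.log_pow] at this
  obtain ⟨Y, hY⟩ : ∃ Y, Y = (y : ℝ) / Real.log x := ⟨_, rfl⟩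
  have hY0 : 0 < Y := by rw [hY]; positivity
  have hyY : (y : ℝ) = Y * Real.log x := by rw [hY]; field_simp
  have hSn : (0 : ℝ) ≤ ((Sv x y κ a).card : ℝ) := Nat.cast_nonneg _
  have t1 : c * (y : ℝ) / Real.log x = c * Y := by rw [hY]; ring
  have t2 : (y : ℝ) * (x : ℝ) ^ (-(κ₁ / 4)) ≤ Y * (3 * c / 32) := by
    rw [hyY, mul_assoc]; gcongr
  have t2n : (0 : ℝ) ≤ (y : ℝ) * (x : ℝ) ^ (-(κ₁ / 4)) := by positivity
  rw [t1, ← hY] at hsum
  have hL0 : 0 < L := by linarith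
  -- lower bound of the left side
  have l1 : L / 2 * (c * Y) ≤ (J.card : ℝ) * (c * Y) := by gcongr
  have l2 : C * Y * (2 * L * ∑ j ∈ J, ms (On x a) (Real.exp (j : ℕ) / 2)
      (3 * Real.exp (j : ℕ))) ≤ C * Y * (2 * L * (2 * (c / (64 * C)))) := by
    have : ∑ j ∈ J, ms (On x a) (Real.exp (j : ℕ) / 2) (3 * Real.exp (j : ℕ)) ≤
        2 * (c / (64 * C)) := by linarith
    gcongr
  have l3 : C * Y * (2 * L * (2 * (c / (64 * C)))) = L * Y * (c / 16) := by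
    have e : C * (c / (64 * C)) = c / 64 := by
      rw [mul_div_assoc', mul_comm C c, mul_div_mul_right c 64 hC0.ne']
    calc C * Y * (2 * L * (2 * (c / (64 * C)))) = 4 * L * Y * (C * (c / (64 * C))) := by ring
      _ = L * Y * (c / 16) := by rw [e]; ring
  have l4 : (J.card : ℝ) * ((y : ℝ) * (x : ℝ) ^ (-(κ₁ / 4))) ≤ 2 * L * (Y * (3 * c / 32)) := by
    gcongr
  have l5 : 2 * Real.log y * ((Sv x y κ a).card : ℝ) ≤
      4 * Real.log x * ((Sv x y κ a).card : ℝ) := by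
    have : 2 * Real.log y ≤ 4 * Real.log x := by linarith
    exact mul_le_mul_of_nonneg_right this hSn
  have l6 : L * Y * (c / 4) ≤ 4 * Real.log x * ((Sv x y κ a).card : ℝ) := by
    have e : L / 2 * (c * Y) - (L * Y * (c / 16) + 2 * L * (Y * (3 * c / 32))) =
        L * Y * (c / 4) := by ring
    linarith
  have l7 : κ₁ * Real.log x * Y * (c / 4) ≤ L * Y * (c / 4) := by gcongr
  have l8 : Real.log x * (c * κ₁ / 16 * Y) ≤ Real.log x * ((Sv x y κ a).card : ℝ) := by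
    have e : κ₁ * Real.log x * Y * (c / 4) = 4 * (Real.log x * (c * κ₁ / 16 * Y)) := by ring
    linarith
  have l9 := le_of_mul_le_mul_left l8 hlx
  have e : c * κ₁ / 16 * (y : ℝ) / Real.log x = c * κ₁ / 16 * Y := by rw [hY]; ring
  rw [e]; exact l9

end Pool.Agent.Helper48.JS
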